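import Pool.Agent.K3h7.HUD.Final

/-!
# The layered tree-independence number of hyperbolic uniform disk graphs is not bounded

Q1 asks for an absolute constant `c` with `ltree-α(G) ≤ c` for all hyperbolic uniform disk graphs
`G`, of any radius. There is none: for every `c` and every radius `r ≥ 2 ^ (6 c + 5)` there is a
hyperbolic uniform disk graph `G` with radius `r` and `ltree-α(G) > c`. Moreover `G` has a vertex
that is adjacent to all others and no clique with five vertices.

Construction (upper half plane, `S = sinh r`; two disks meet iff
`(x - x')² + (y - y')² ≤ 4 S² y y'`): for `k < L` the row `k` consists of the points whose first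
coordinates are the odd multiples of `1 / n k` and whose second coordinate is `1 / (S n k)`, where
`n 0 = 1`, `n (k + 1) = 32 (n k)²`. Consecutive points of a row are adjacent, and a vertex has at
most one neighbour in the union of the rows above it, so that every transversal of the rows
contains an independent set of half its size. There are vertical paths that go through all rows and
are far away from each other; these columns together with the rows form a bramble.

Definitions used (file `Pool/Agent/K3h7/HUD/Defs.lean`): `IsHyperbolicUniformDiskGraph`,
`TreeDecomposition`, `IsLayering`, `ltreeAlpha`.
-/

set_option autoImplicit false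

namespace Pool.Agent.Results.MP_49eb30_co.Unbounded

open Pool.Agent.K3h7.HUD

/-- For every `c` and every `r ≥ 2 ^ (6 c + 5)` there is a finite hyperbolic uniform disk graph with
radius `r`, with a vertex adjacent to all others and without a clique on five vertices, whose layered
tree-independence number is larger than `c`. -/
theorem result (c : ℕ) (r : ℝ) (hr : (2 : ℝ) ^ (6 * c + 5) ≤ r) :
    ∃ (V : Type) (_ : Finite V) (G : SimpleGraph V), IsHyperbolicUniformDiskGraph r G ∧
      G.CliqueFree 5 ∧ (∃ v, ∀ u, u ≠ v → G.Adj v u) ∧ c < ltreeAlpha G :=
  main c r hr

end Pool.Agent.Results.MP_49eb30_co.Unbounded
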